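import Pool.Agent.H241.FA.Main

set_option autoImplicit false

namespace Pool.Agent.Results.MP_12dd5c_an.NotFnA

open Pool.Agent.H241.FA

/-- There is an F-algebra `A` such that `AP(A)` (and even `A*`) has a topological left invariant
mean, but `(Fₙᴬ)` fails for every `n ≥ 1`, over both scalar fields, and it still fails if the
slices `(x + H) ∩ X` are required to be convex as well as compact. -/
theorem result : ∃ 𝒜 : FAlgebra, 𝒜.HasTLIM 𝒜.AP ∧ 𝒜.HasTLIM Set.univ ∧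
    ∀ n : ℕ, 1 ≤ n → (¬ 𝒜.PropFA ℝ n ∧ ¬ 𝒜.PropFA ℂ n) ∧
      (¬ 𝒜.PropFAConvex ℝ n ∧ ¬ 𝒜.PropFAConvex ℂ n) :=
  ⟨alg, alg_TLIM _, alg_TLIM _, fun n hn =>
    ⟨⟨fun h => not_PropFAConvex ℝ n hn (FAlgebra.PropFA.convex _ h),
      fun h => not_PropFAConvex ℂ n hn (FAlgebra.PropFA.convex _ h)⟩,
      ⟨not_PropFAConvex ℝ n hn, not_PropFAConvex ℂ n hn⟩⟩⟩

end Pool.Agent.Results.MP_12dd5c_an.NotFnA
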